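import Pool.Agent.Helper15.EP.St

set_option autoImplicit false

/-!
# Project EP (MP_16cbc0_nt): module KCR, multiplicativity of the Kloosterman type sums
-/

open Polynomial

namespace Pool.Agent.Helper80.EP

open Pool.Agent.Helper15.FC Pool.Agent.Helper15.EP

theorem mod_mem_Lw {F : Type} [Field F] [Fintype F] {m : F[X]} (hm : m.Monic) (f : F[X]) :
    f %ₘ m ∈ Lw F m.natDegree := by
  rw [mem_Lw, ← degree_eq_natDegree hm.ne_zero]
  exact degree_modByMonic_lt f hm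

theorem dvd_sub_mod {F : Type} [Field F] (f m : F[X]) : m ∣ f - f %ₘ m := by
  have h := dvd_modByMonic_sub f m
  rw [← neg_sub]
  exact (dvd_neg).2 h

theorem mod_eq_of {F : Type} [Field F] [Fintype F] {m : F[X]} (hm : m.Monic) {f g : F[X]}
    (hg : g ∈ Lw F m.natDegree) (h : m ∣ f - g) : f %ₘ m = g := by
  rw [mem_Lw, ← degree_eq_natDegree hm.ne_zero] at hg
  rw [modByMonic_eq_of_dvd_sub hm h, (modByMonic_eq_self_iff hm).2 hg]

theorem AC_congr {F : Type} [Field F] {m : F[X]} {ν : AddChar F[X] ℂ} (hν : ν ∈ AC m)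
    {f g : F[X]} (h : m ∣ f - g) : ν f = ν g := by
  obtain ⟨c, hc⟩ := h
  have h1 : f = g + m * c := by rw [← hc]; ring
  rw [h1, AddChar.map_add_eq_mul]
  have h2 : ν (m * c) = 1 := hν c
  rw [h2, mul_one]

theorem congr_mul {F : Type} [Field F] {m A t x x' z z' : F[X]} (hx : m ∣ x - x')
    (hz : m ∣ z - z') (h : m ∣ A * x' * z' - t) : m ∣ A * x * z - t := by
  obtain ⟨a, ha⟩ := hx
  obtain ⟨b, hb⟩ := hz
  obtain ⟨c, hc⟩ := h
  refine ⟨A * a * z + A * x' * b + c, ?_⟩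
  have e1 : x = x' + m * a := by rw [← ha]; ring
  have e2 : z = z' + m * b := by rw [← hb]; ring
  have e3 : A * x' * z' = t + m * c := by rw [← hc]; ring
  have e4 : A * x * z - t = A * x' * z' - t + m * (A * a * z + A * x' * b) := by
    rw [e1, e2]; ring
  rw [e4, e3]
  ring

theorem dvd_sub_comm' {F : Type} [Field F] {m f g : F[X]} (h : m ∣ f - g) : m ∣ g - f := by
  rw [← neg_sub]
  exact (dvd_neg).2 h

theorem hKCR : StKCR := by
  classical
  intro F _ _ r s A t ν1 ν2 hr hs hrs hν1 hν2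
  obtain ⟨a, b, hab⟩ := hrs
  have hrs' : IsCoprime r s := ⟨a, b, hab⟩
  have hm : (r * s).Monic := hr.mul hs
  -- the characters
  have hα : ∀ ν : AddChar F[X] ℂ, ν ∈ AC (r * s) → AddChar.mulShift ν (b * s) ∈ AC r := by
    intro ν hν g
    rw [AddChar.mulShift_apply]
    have h1 : b * s * (r * g) = r * s * (b * g) := by ring
    rw [h1]
    exact hν _
  have hβ : ∀ ν : AddChar F[X] ℂ, ν ∈ AC (r * s) → AddChar.mulShift ν (a * r) ∈ AC s := by
    intro ν hν g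
    rw [AddChar.mulShift_apply]
    have h1 : a * r * (s * g) = r * s * (a * g) := by ring
    rw [h1]
    exact hν _
  have hsplit : ∀ (ν : AddChar F[X] ℂ) (f : F[X]),
      ν f = AddChar.mulShift ν (b * s) f * AddChar.mulShift ν (a * r) f := by
    intro ν f
    rw [AddChar.mulShift_apply, AddChar.mulShift_apply, ← AddChar.map_add_eq_mul]
    congr 1
    have h1 : b * s * f + a * r * f = (a * r + b * s) * f := by ring
    rw [h1, hab, one_mul]
  have hmul : ∀ ν : AddChar F[X] ℂ,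
      ν = AddChar.mulShift ν (b * s) * AddChar.mulShift ν (a * r) := by
    intro ν
    ext f
    rw [AddChar.mul_apply]
    exact hsplit ν f
  refine ⟨AddChar.mulShift ν1 (b * s), AddChar.mulShift ν2 (b * s), AddChar.mulShift ν1 (a * r),
    AddChar.mulShift ν2 (a * r), hα _ hν1, hα _ hν2, hβ _ hν1, hβ _ hν2, hmul ν1, hmul ν2, ?_⟩
  -- values
  have hval : ∀ (ν : AddChar F[X] ℂ), ν ∈ AC (r * s) → ∀ x : F[X],
      ν x = AddChar.mulShift ν (b * s) (x %ₘ r) * AddChar.mulShift ν (a * r) (x %ₘ s) := by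
    intro ν hν x
    rw [hsplit ν x, AC_congr (hα ν hν) (dvd_sub_mod x r), AC_congr (hβ ν hν) (dvd_sub_mod x s)]
  -- the inverse map
  have hinv_r : ∀ x1 x2 : F[X], r ∣ (b * s * x1 + a * r * x2) - x1 := by
    intro x1 x2
    refine ⟨a * (x2 - x1), ?_⟩
    have h1 : b * s * x1 = x1 - a * r * x1 := by
      have h2 : b * s = 1 - a * r := by rw [← hab]; ring
      rw [h2]; ring
    rw [h1]; ring
  have hinv_s : ∀ x1 x2 : F[X], s ∣ (b * s * x1 + a * r * x2) - x2 := by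
    intro x1 x2
    refine ⟨b * (x1 - x2), ?_⟩
    have h1 : a * r * x2 = x2 - b * s * x2 := by
      have h2 : a * r = 1 - b * s := by rw [← hab]; ring
      rw [h2]; ring
    rw [h1]; ring
  have hJr : ∀ x1 x2 : F[X], r ∣ ((b * s * x1 + a * r * x2) %ₘ (r * s)) - x1 := by
    intro x1 x2
    have h1 : r ∣ (b * s * x1 + a * r * x2) - (b * s * x1 + a * r * x2) %ₘ (r * s) :=
      (Dvd.intro s rfl).trans (dvd_sub_mod _ _)
    have h2 := dvd_sub (hinv_r x1 x2) h1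
    have h3 : (b * s * x1 + a * r * x2) - x1 -
        ((b * s * x1 + a * r * x2) - (b * s * x1 + a * r * x2) %ₘ (r * s)) =
        ((b * s * x1 + a * r * x2) %ₘ (r * s)) - x1 := by ring
    rwa [h3] at h2
  have hJs : ∀ x1 x2 : F[X], s ∣ ((b * s * x1 + a * r * x2) %ₘ (r * s)) - x2 := by
    intro x1 x2
    have h1 : s ∣ (b * s * x1 + a * r * x2) - (b * s * x1 + a * r * x2) %ₘ (r * s) :=
      (Dvd.intro_left r rfl).trans (dvd_sub_mod _ _)
    have h2 := dvd_sub (hinv_s x1 x2) h1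
    have h3 : (b * s * x1 + a * r * x2) - x2 -
        ((b * s * x1 + a * r * x2) - (b * s * x1 + a * r * x2) %ₘ (r * s)) =
        ((b * s * x1 + a * r * x2) %ₘ (r * s)) - x2 := by ring
    rwa [h3] at h2
  have hJI : ∀ x ∈ Lw F (r * s).natDegree,
      (b * s * (x %ₘ r) + a * r * (x %ₘ s)) %ₘ (r * s) = x := by
    intro x hx
    refine mod_eq_of hm hx (hrs'.mul_dvd ?_ ?_)
    · have h1 := dvd_sub (hinv_r (x %ₘ r) (x %ₘ s)) (dvd_sub_mod x r)
      have h3 : (b * s * (x %ₘ r) + a * r * (x %ₘ s)) - x %ₘ r - (x - x %ₘ r) =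
        b * s * (x %ₘ r) + a * r * (x %ₘ s) - x := by ring
      rwa [h3] at h1
    · have h1 := dvd_sub (hinv_s (x %ₘ r) (x %ₘ s)) (dvd_sub_mod x s)
      have h3 : (b * s * (x %ₘ r) + a * r * (x %ₘ s)) - x %ₘ s - (x - x %ₘ s) =
        b * s * (x %ₘ r) + a * r * (x %ₘ s) - x := by ring
      rwa [h3] at h1
  have hdr : ∀ {f : F[X]}, r * s ∣ f → r ∣ f := fun h => (Dvd.intro s rfl).trans h
  have hds : ∀ {f : F[X]}, r * s ∣ f → s ∣ f := fun h => (Dvd.intro_left r rfl).trans h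
  unfold KS
  rw [Finset.sum_mul_sum, ← Finset.sum_product']
  refine Finset.sum_bij'
    (fun p _ => ((p.1 %ₘ r, p.2 %ₘ r), (p.1 %ₘ s, p.2 %ₘ s)))
    (fun p _ => ((b * s * p.1.1 + a * r * p.2.1) %ₘ (r * s),
      (b * s * p.1.2 + a * r * p.2.2) %ₘ (r * s))) ?_ ?_ ?_ ?_ ?_
  · intro p hp
    rw [Finset.mem_filter, Finset.mem_product] at hp
    obtain ⟨⟨_, _⟩, h3⟩ := hp
    rw [Finset.mem_product, Finset.mem_filter, Finset.mem_filter, Finset.mem_product,
      Finset.mem_product]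
    refine ⟨⟨⟨mod_mem_Lw hr _, mod_mem_Lw hr _⟩, ?_⟩, ⟨mod_mem_Lw hs _, mod_mem_Lw hs _⟩, ?_⟩
    · exact congr_mul (dvd_sub_comm' (dvd_sub_mod p.1 r)) (dvd_sub_comm' (dvd_sub_mod p.2 r))
        (hdr h3)
    · exact congr_mul (dvd_sub_comm' (dvd_sub_mod p.1 s)) (dvd_sub_comm' (dvd_sub_mod p.2 s))
        (hds h3)
  · intro p hp
    rw [Finset.mem_product, Finset.mem_filter, Finset.mem_filter] at hp
    obtain ⟨⟨_, h1⟩, ⟨_, h2⟩⟩ := hp
    rw [Finset.mem_filter, Finset.mem_product]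
    refine ⟨⟨mod_mem_Lw hm _, mod_mem_Lw hm _⟩, hrs'.mul_dvd ?_ ?_⟩
    · exact congr_mul (hJr _ _) (hJr _ _) h1
    · exact congr_mul (hJs _ _) (hJs _ _) h2
  · intro p hp
    rw [Finset.mem_filter, Finset.mem_product] at hp
    obtain ⟨⟨h1, h2⟩, _⟩ := hp
    exact Prod.ext (hJI p.1 h1) (hJI p.2 h2)
  · intro p hp
    rw [Finset.mem_product, Finset.mem_filter, Finset.mem_filter, Finset.mem_product,
      Finset.mem_product] at hp
    obtain ⟨⟨⟨h1, h2⟩, _⟩, ⟨⟨h3, h4⟩, _⟩⟩ := hp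
    refine Prod.ext (Prod.ext ?_ ?_) (Prod.ext ?_ ?_)
    · exact mod_eq_of hr h1 (hJr _ _)
    · exact mod_eq_of hr h2 (hJr _ _)
    · exact mod_eq_of hs h3 (hJs _ _)
    · exact mod_eq_of hs h4 (hJs _ _)
  · intro p _
    show ν1 p.1 * ν2 p.2 =
      AddChar.mulShift ν1 (b * s) (p.1 %ₘ r) * AddChar.mulShift ν2 (b * s) (p.2 %ₘ r) *
      (AddChar.mulShift ν1 (a * r) (p.1 %ₘ s) * AddChar.mulShift ν2 (a * r) (p.2 %ₘ s))
    rw [hval ν1 hν1 p.1, hval ν2 hν2 p.2]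
    ring

end Pool.Agent.Helper80.EP
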