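import Pool.Agent.Helper68.EP.St1

/-! # Project EP (MP_cb927e_an), module EF1: typical points have exit scales above their cell -/

set_option autoImplicit false

open MeasureTheory Set Filter Topology
open scoped ENNReal RealInnerProductSpace

namespace Pool.Agent.Helper80.EP

open Pool.Agent.Helper68.EP Pool.Agent.Helper20.RG
open Pool.Agent.Helper20.RL (RQ Rich BM Fml)
open Pool.Agent.Helper68.LM (Pl DQ)

/-- density in a square cell gives density in the nine squares -/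
theorem rich_le (hEQ : StEQ) (E F : Set Pl) (s ϑ : ℝ) (B : ℤ) (z : Pl) (hs : |s| ≤ 1) (hF : F ⊆ E)
    (h : Rich F s B B ϑ z) :
    ENNReal.ofReal (ϑ / 4 * (4 : ℝ) ^ (B + 1)) ≤ volume (E ∩ DQ3 (B + 1) z) := by
  have h1 : ϑ / 4 * (4 : ℝ) ^ (B + 1) = ϑ * (2 : ℝ) ^ (B + B) := by
    have h4 : (4 : ℝ) ^ (B + 1) = 4 * (2 : ℝ) ^ (B + B) := by
      rw [zpow_add₀ (by norm_num : (4 : ℝ) ≠ 0), zpow_add₀ (by norm_num : (2 : ℝ) ≠ 0), ← mul_zpow]
      norm_num
      ring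
    rw [h4]
    ring
  rw [h1]
  refine le_trans h (measure_mono ?_)
  exact inter_subset_inter hF (hEQ.2.2.2.2.1 s B z hs)

theorem cmp {a b : ℝ} {n : ℤ} (ha : 0 < a)
    (h : ENNReal.ofReal (a * (4 : ℝ) ^ n) ≤ ENNReal.ofReal (b * (4 : ℝ) ^ n)) : a ≤ b := by
  have h4 : (0 : ℝ) < (4 : ℝ) ^ n := zpow_pos (by norm_num) n
  by_contra hab
  push Not at hab
  have h1 : b * (4 : ℝ) ^ n < a * (4 : ℝ) ^ n := mul_lt_mul_of_pos_right hab h4
  have h2 : ENNReal.ofReal (b * (4 : ℝ) ^ n) < ENNReal.ofReal (a * (4 : ℝ) ^ n) :=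
    (ENNReal.ofReal_lt_ofReal_iff (mul_pos ha h4)).2 h1
  exact absurd h (not_le.2 h2)

theorem hEF1 (hEQ : StEQ) (hEFB : StEFB) (hEVF : StEVF) : StEF1 := by
  intro P Δ u j k θ E z hSy hOk hj hE hz
  obtain ⟨hz1, hz2, hz3, hz4⟩ := hz
  obtain ⟨hθ0, hθ1⟩ := hOk.th
  obtain ⟨hW, -, -, -⟩ := (hEVF P Δ u j k θ E hE hθ0).1 z hz2
  set B := Bc P Δ u j k θ E z with hBdef
  obtain ⟨hW1, hW2, -⟩ := hW
  have hs : |Δ.sl u j| ≤ 1 := hSy.slope u j hOk.u1 hj
  have huq : (u : ℤ) ≤ 2 ^ q0 P u := by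
    have := hOk.uq
    have h2 : u ≤ 2 ^ q0 P u := by omega
    exact_mod_cast h2
  have hBu : B ≤ k - (u : ℤ) := by linarith
  have hFoE : ∀ q : ℕ, Fo P u k q E ⊆ E := fun q => (hEFB.1 E (DD P u) (k - 2 ^ q)).1
  have hd1 : ENNReal.ofReal (θ / 32 * (4 : ℝ) ^ (B + 1)) ≤ volume (E ∩ DQ3 (B + 1) z) := by
    have := rich_le hEQ E _ _ _ B z hs (hFoE _) (hz3 B hBu)
    have e : θ / 8 / 4 = θ / 32 := by ring
    rwa [e] at this
  have hDD : 0 < DD P u := Real.rpow_pos_of_pos (by norm_num) _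
  have het : ∀ q : ℕ, q0 P u ≤ q → et P u (q0 P u) ≤ et P u q := by
    intro q hq
    unfold et
    apply zpow_le_zpow_right₀ (by norm_num)
    have : ((q0 P u : ℕ) : ℤ) ≤ (q : ℤ) := by exact_mod_cast hq
    linarith
  have h4 : ∀ q : ℕ, q0 P u ≤ q → q ≤ q1 P u → z ∈ Fo P u k q E →
      B + 1 < k - 2 ^ q ∧ 2 ^ q < Δ.fl u j ∧ q < q1 P u := by
    intro q hq0 hq1 hzq
    have hR := rich_le hEQ E _ _ _ B z hs (hFoE _) (hz4 q hq0 hq1 hzq B hBu)
    have hlt : B + 1 < k - 2 ^ q := by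
      by_contra hcon
      push Not at hcon
      have h5 := hzq.2 (B + 1) hcon
      have h6 := het q hq0
      have h7 : 0 < et P u q := zpow_pos (by norm_num) _
      have h8 : et P u q * θ / 4 ≤ DD P u := cmp (by positivity) (le_trans hR h5)
      have h9 := hOk.den
      have h10 : et P u (q0 P u) * θ ≤ et P u q * θ := mul_le_mul_of_nonneg_right h6 hθ0.le
      linarith
    have hfl : 2 ^ q < Δ.fl u j := by
      have : ((2 : ℤ)) ^ q < (Δ.fl u j : ℤ) := by linarith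
      exact_mod_cast this
    refine ⟨hlt, hfl, ?_⟩
    have hfl2 := (hSy.flat u j hOk.u1 hj).2
    exact (Nat.pow_lt_pow_iff_right (by norm_num)).1 (lt_of_lt_of_le hfl hfl2)
  refine ⟨⟨hW1, hW2, hBu⟩, hd1, ?_, h4, ?_⟩
  · intro D b hD hb hzb
    have h5 := hzb.2 (B + 1) hb
    have := cmp (by positivity) (le_trans hd1 h5)
    linarith
  · by_contra hcon
    push Not at hcon
    have hall : ∀ n : ℕ, q0 P u + n ≤ q1 P u → z ∈ Fo P u k (q0 P u + n) E := by
      intro n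
      induction n with
      | zero => intro _; exact hz1
      | succ n ih =>
        intro hn
        have h5 := ih (by omega)
        by_contra h6
        exact hcon (q0 P u + n) (by omega) (by omega) ⟨h5, h6⟩
    have hlt := hOk.qq.2
    have h5 := hall (q1 P u - q0 P u) (by omega)
    have e : q0 P u + (q1 P u - q0 P u) = q1 P u := by omega
    rw [e] at h5
    exact absurd (h4 (q1 P u) hlt.le le_rfl h5).2.2 (lt_irrefl _)

end Pool.Agent.Helper80.EP
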