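import Pool.Agent.Helper68.EP.St5

/-! # Project EP (MP_cb927e_an), module XW: rich cells are narrow -/

set_option autoImplicit false

open MeasureTheory Set Filter Topology
open scoped ENNReal RealInnerProductSpace

namespace Pool.Agent.Helper80.EP

open Pool.Agent.Helper68.EP Pool.Agent.Helper20.RG
open Pool.Agent.Helper20.RL (RQ Rich BM Fml)
open Pool.Agent.Helper68.LM (Pl DQ)

/-- the lower end of the range of the second coordinate in a column -/
noncomputable def mlow (s S W : ℝ) (l c : ℤ) : ℝ := l * W + min (s * (c * S)) (s * ((c + 1) * S))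

theorem row_bounds (s S W z0 z1 : ℝ) (l c : ℤ) (hs : |s| ≤ 1) (hS : 0 < S)
    (h0 : c * S ≤ z0) (h1 : z0 < (c + 1) * S) (h2 : l * W ≤ z1 - s * z0) (h3 : z1 - s * z0 < (l + 1) * W) :
    mlow s S W l c ≤ z1 ∧ z1 < mlow s S W l c + (W + S) := by
  obtain ⟨hs1, hs2⟩ := abs_le.1 hs
  unfold mlow
  rcases le_total 0 s with h | h
  · have a1 : s * (c * S) ≤ s * z0 := mul_le_mul_of_nonneg_left h0 h
    have a2 : s * z0 ≤ s * ((c + 1) * S) := mul_le_mul_of_nonneg_left h1.le h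
    have a3 : min (s * (c * S)) (s * ((c + 1) * S)) = s * (c * S) := min_eq_left (a1.trans a2)
    rw [a3]
    constructor
    · linarith
    · nlinarith
  · have a1 : s * z0 ≤ s * (c * S) := mul_le_mul_of_nonpos_left h0 h
    have a2 : s * ((c + 1) * S) ≤ s * z0 := mul_le_mul_of_nonpos_left h1.le h
    have a3 : min (s * (c * S)) (s * ((c + 1) * S)) = s * ((c + 1) * S) := min_eq_right (a2.trans a1)
    rw [a3]
    constructor
    · linarith
    · nlinarith

theorem hXW (hPT : Pool.Agent.Helper20.RG.StPT) : StXW := by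
  intro F s a b w D ϑ y hs hba hbw hD hF hR
  set w' : ℤ := min w a with hw'
  have hw'w : w' ≤ w := min_le_left _ _
  have hw'a : w' ≤ a := min_le_right _ _
  have hbw' : b ≤ w' := le_min hbw hba
  obtain ⟨n, hn⟩ := Int.eq_ofNat_of_zero_le (sub_nonneg.2 hw'a)
  obtain ⟨m, hm⟩ := Int.eq_ofNat_of_zero_le (sub_nonneg.2 hw'w)
  set S : ℝ := (2 : ℝ) ^ w' with hS
  have hS0 : 0 < S := zpow_pos (by norm_num) _
  have hA : (2 : ℝ) ^ a = (2 : ℝ) ^ n * S := by
    have : a = (n : ℤ) + w' := by omega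
    rw [this, zpow_add₀ (by norm_num : (2 : ℝ) ≠ 0), zpow_natCast]
  have hW : (2 : ℝ) ^ w = (2 : ℝ) ^ m * S := by
    have : w = (m : ℤ) + w' := by omega
    rw [this, zpow_add₀ (by norm_num : (2 : ℝ) ≠ 0), zpow_natCast]
  set i0 : ℤ := ⌊y 0 / (2 : ℝ) ^ a⌋ with hi0
  set l0 : ℤ := ⌊pr s y / (2 : ℝ) ^ w⌋ with hl0
  let N : ℕ := 2 ^ n
  let K : ℕ := 2 ^ m
  have hNr : (N : ℝ) = (2 : ℝ) ^ n := by simp [N]
  have hKr : (K : ℝ) = (2 : ℝ) ^ m := by simp [K]
  let M : ℤ → ℤ := fun c => ⌊mlow s S ((2 : ℝ) ^ w) l0 c / S⌋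
  let pnt : ℕ × ℕ → Pl := fun q => pt (((i0 * N + q.1 : ℤ) : ℝ) * S)
    (((M (i0 * N + q.1) + q.2 : ℤ) : ℝ) * S)
  have hcov : F ∩ RQ s a w y ⊆ ⋃ q ∈ Finset.range N ×ˢ Finset.range (K + 2), F ∩ DQ w' (pnt q) := by
    rintro z ⟨hzF, hz0, hz1⟩
    have ha0 : (0 : ℝ) < (2 : ℝ) ^ a := zpow_pos (by norm_num) _
    have hw0 : (0 : ℝ) < (2 : ℝ) ^ w := zpow_pos (by norm_num) _
    obtain ⟨b1, b2⟩ := Int.floor_eq_iff.1 hz0
    obtain ⟨b3, b4⟩ := Int.floor_eq_iff.1 hz1
    rw [← hi0] at b1 b2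
    rw [← hl0] at b3 b4
    rw [le_div_iff₀ ha0] at b1
    rw [div_lt_iff₀ ha0] at b2
    rw [le_div_iff₀ hw0] at b3
    rw [div_lt_iff₀ hw0] at b4
    rw [hA] at b1 b2
    set c : ℤ := ⌊z 0 / S⌋ with hc
    have c1 : c * S ≤ z 0 := by
      have := Int.floor_le (z 0 / S)
      rwa [le_div_iff₀ hS0] at this
    have c2 : z 0 < (c + 1) * S := by
      have := Int.lt_floor_add_one (z 0 / S)
      rwa [div_lt_iff₀ hS0] at this
    have c3 : i0 * N ≤ c := by
      rw [hc, Int.le_floor, le_div_iff₀ hS0]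
      push_cast
      rw [hNr]
      linarith
    have c4 : c < (i0 + 1) * N := by
      rw [hc, Int.floor_lt, div_lt_iff₀ hS0]
      push_cast
      rw [hNr]
      linarith
    obtain ⟨d1, d2⟩ := row_bounds s S ((2 : ℝ) ^ w) (z 0) (z 1) l0 c hs hS0 c1 c2 b3 b4
    set ml := mlow s S ((2 : ℝ) ^ w) l0 c with hml
    rw [hW] at d2
    set r : ℤ := ⌊z 1 / S⌋ with hr
    have e1 : M c ≤ r := by
      apply Int.floor_le_floor
      exact div_le_div_of_nonneg_right d1 hS0.le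
    have e2 : r < M c + (K + 2) := by
      rw [hr, Int.floor_lt, div_lt_iff₀ hS0]
      have e3 : ml / S < (M c : ℝ) + 1 := Int.lt_floor_add_one _
      rw [div_lt_iff₀ hS0] at e3
      push_cast
      rw [hKr]
      nlinarith
    have f1 : 0 ≤ c - i0 * N := by linarith
    have f2 : 0 ≤ r - M c := by linarith
    obtain ⟨c', hc'⟩ := Int.eq_ofNat_of_zero_le f1
    obtain ⟨r', hr'⟩ := Int.eq_ofNat_of_zero_le f2
    have g1 : c = i0 * N + c' := by linarith
    have g2 : r = M c + r' := by linarith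
    refine mem_biUnion (x := (c', r')) ?_ ⟨hzF, ?_⟩
    · simp only [Finset.coe_product, Finset.coe_range, mem_prod, mem_Iio]
      constructor
      · have : (c' : ℤ) < N := by linarith
        exact_mod_cast this
      · have : (r' : ℤ) < K + 2 := by linarith
        exact_mod_cast this
    · intro i
      have hp := hPT.1 (((i0 * N + c' : ℤ) : ℝ) * S) (((M (i0 * N + c') + r' : ℤ) : ℝ) * S)
      fin_cases i
      · change ⌊z 0 / S⌋ = ⌊(pnt (c', r')) 0 / S⌋
        simp only [pnt]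
        rw [hp.1, mul_div_assoc, div_self hS0.ne', mul_one, Int.floor_intCast]
        exact g1
      · change ⌊z 1 / S⌋ = ⌊(pnt (c', r')) 1 / S⌋
        simp only [pnt]
        rw [hp.2, mul_div_assoc, div_self hS0.ne', mul_one, Int.floor_intCast, ← g1]
        exact g2
  have hvol : volume (F ∩ RQ s a w y) ≤ ENNReal.ofReal (4 * D * (2 : ℝ) ^ (a + w)) := by
    calc volume (F ∩ RQ s a w y)
        ≤ volume (⋃ q ∈ Finset.range N ×ˢ Finset.range (K + 2), F ∩ DQ w' (pnt q)) := measure_mono hcov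
      _ ≤ ∑ q ∈ Finset.range N ×ˢ Finset.range (K + 2), volume (F ∩ DQ w' (pnt q)) :=
          measure_biUnion_finset_le _ _
      _ ≤ ∑ _q ∈ Finset.range N ×ˢ Finset.range (K + 2), ENNReal.ofReal (D * (4 : ℝ) ^ w') :=
          Finset.sum_le_sum fun q _ => hF _ _ hbw'
      _ = ENNReal.ofReal (((N * (K + 2) : ℕ) : ℝ) * (D * (4 : ℝ) ^ w')) := by
          rw [Finset.sum_const, Finset.card_product, Finset.card_range, Finset.card_range,
            ENNReal.ofReal_mul (p := ((N * (K + 2) : ℕ) : ℝ)) (by positivity), ENNReal.ofReal_natCast,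
            nsmul_eq_mul]
      _ ≤ ENNReal.ofReal (4 * D * (2 : ℝ) ^ (a + w)) := by
          apply ENNReal.ofReal_le_ofReal
          have h4 : (4 : ℝ) ^ w' = S * S := by
            rw [hS, ← mul_zpow]
            norm_num
          have hSW : S ≤ (2 : ℝ) ^ w := by
            rw [hW]
            have : (1 : ℝ) ≤ (2 : ℝ) ^ m := one_le_pow₀ (by norm_num)
            nlinarith
          rw [h4, zpow_add₀ (by norm_num : (2 : ℝ) ≠ 0)]
          have e1 : ((N * (K + 2) : ℕ) : ℝ) * (D * (S * S)) =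
              D * (((2 : ℝ) ^ n * S) * ((2 : ℝ) ^ m * S + 2 * S)) := by
            push_cast
            rw [hNr, hKr]
            ring
          rw [e1, ← hA, ← hW]
          have ha0 : (0 : ℝ) < (2 : ℝ) ^ a := zpow_pos (by norm_num) _
          have e2 : (2 : ℝ) ^ a * ((2 : ℝ) ^ w + 2 * S) ≤ (2 : ℝ) ^ a * (4 * (2 : ℝ) ^ w) :=
            mul_le_mul_of_nonneg_left (by linarith) ha0.le
          calc D * ((2 : ℝ) ^ a * ((2 : ℝ) ^ w + 2 * S)) ≤ D * ((2 : ℝ) ^ a * (4 * (2 : ℝ) ^ w)) :=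
                mul_le_mul_of_nonneg_left e2 hD
            _ = 4 * D * ((2 : ℝ) ^ a * (2 : ℝ) ^ w) := by ring
  have hfin := le_trans hR hvol
  by_contra hcon
  push Not at hcon
  have hp : (0 : ℝ) < (2 : ℝ) ^ (a + w) := zpow_pos (by norm_num) _
  have hϑ : 0 < ϑ := lt_of_le_of_lt (by positivity) hcon
  have := (ENNReal.ofReal_lt_ofReal_iff (mul_pos hϑ hp)).2 (mul_lt_mul_of_pos_right hcon hp)
  exact absurd hfin (not_le.2 this)

end Pool.Agent.Helper80.EP
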